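import Pool.Agent.H752.NX.Defs
import Pool.Agent.H752.GE.Base

/-!
# The objects of the proof
-/

namespace Pool.Agent.H752.NX

open Pool.Agent.NPC Pool.Agent.H620R2.Gauge Pool.Agent.H752.GE

/-- The number with the binary digits `y`, the highest digit first. -/
def val (y : List Bool) : ℕ := y.foldl (fun a b => 2 * a + b.toNat) 0

/-- Some string `pos i y z` with `|z| = r i` is in the oracle. -/
def On {I : Type} (r : I → ℕ) (pos : I → List Bool → List Bool → List Bool) (i : I)
    (y : List Bool) (A : Oracle) : Prop :=
  ∃ z : List Bool, z.length = r i ∧ A (pos i y z) = true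

/-- The requirement: the greatest `t` of length `l i` for which some string `pos i t z` is in the
oracle (or `t = 0`) is odd if and only if the test `Acc i` accepts. -/
def Req {I : Type} (l r : I → ℕ) (pos : I → List Bool → List Bool → List Bool)
    (Acc : I → Oracle → Prop) (i : I) (A : Oracle) : Prop :=
  ∃ t : List Bool, t.length = l i ∧ (val t = 0 ∨ On r pos i t A) ∧
    (∀ y : List Bool, y.length = l i → val t < val y → ¬ On r pos i y A) ∧
    (Acc i A ↔ Odd (val t))

/-- the place of the string belonging to `x`, `y`, `z` and to the language number `e` -/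
def posX (R : ℕ → Polynomial ℕ) (i : ℕ × List Bool) (y z : List Bool) : List Bool :=
  code R i.1 (pairBits i.2 (pairBits y z))

/-- length of `y` -/
noncomputable def lX (S : ℕ → Polynomial ℕ) (i : ℕ × List Bool) : ℕ :=
  4 * (S i.1).eval i.2.length + 1

/-- length of `z` -/
noncomputable def rX (S : ℕ → Polynomial ℕ) (i : ℕ × List Bool) : ℕ :=
  6 * (S i.1).eval i.2.length + 1

/-- the tests: nondeterministic exponential time -/
def AccX (g : ℕ → Alg × Polynomial ℕ) (i : ℕ × List Bool) (A : Oracle) : Prop :=
  i.2 ∈ LV (g i.1).1 (fun m => (g i.1).2.eval m) A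

open Classical in
/-- the oracle for the binary search: can the prefix `p` be extended to some `y` with
`pos x y z` in the oracle? -/
noncomputable def srch (R S : ℕ → Polynomial ℕ) (e : ℕ) (A : Oracle) : Oracle := fun q =>
  decide (∃ x p v z : List Bool, q = pairBits x p ∧ (p ++ v).length = lX S (e, x) ∧
    z.length = rX S (e, x) ∧ A (posX R (e, x) (p ++ v) z) = true)

end Pool.Agent.H752.NX
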