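import Pool.Agent.H620R2.Gauge2.Defs
import Pool.Agent.H752.GE.Defs

/-!
# Polynomial time with an `NP` oracle, relative to an oracle
-/

namespace Pool.Agent.H752.NX

open Pool.Agent.NPC Pool.Agent.H620R2.Gauge

/-- The language `L` is in `P^NP` relative to `A`: a polynomial-time algorithm decides `L` with an
oracle `B` which (as a set of strings) is in `NP` relative to `A`. -/
def IsPNP (A : Oracle) (L : Set (List Bool)) : Prop :=
  ∃ B : Oracle, IsNP A {x | B x = true} ∧ IsP B L

end Pool.Agent.H752.NX
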