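import Pool.Agent.H752.NX.Stubs
import Pool.Agent.H620R2.Gauge.U2
import Pool.Agent.H620R2.Gauge2.Null

/-!
# The final theorem
-/

namespace Pool.Agent.H752.NX

open Pool.Agent.NPC Pool.Agent.H620R2.Gauge Pool.Agent.H752.GE

theorem final (h8 : St_nn) (h9 : St_par) (h10 : St_ph) (f : ℕ → ℝ) (O : Set Oracle)
    (h1 : {A : Oracle | ∀ L, IsNEXP A L → IsPNP A L} ⊆ O)
    (h2 : O ⊆ {A : Oracle | ∀ L, IsNEXP A L → IsPHpoly A L}) :
    Null f O ↔ ∀ ε : ℝ, 0 < ε → ∃ᶠ N : ℕ in Filter.atTop, f N ≤ 2 ^ (Real.logb 2 N) ^ ε := by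
  constructor
  · intro hO
    by_contra hcon
    exact h8 f hcon (hO.mono h1)
  · intro hf
    exact null_of_frequently f hf O fun A hA => h2 hA _ (h9 A)

theorem sub (h10 : St_ph) : {A : Oracle | ∀ L, IsNEXP A L → IsPNP A L} ⊆
    {A : Oracle | ∀ L, IsNEXP A L → IsPHpoly A L} :=
  fun A hA L hL => (h10 A L (hA L hL)).isPHpoly

end Pool.Agent.H752.NX
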