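import Pool.Agent.H752.NX.Base
import Pool.Agent.H620R2.Gauge.Cover

/-!
# The statements of the tasks
-/

namespace Pool.Agent.H752.NX

open Pool.Agent.NPC Pool.Agent.H620R2.Gauge Pool.Agent.H752.GE Finset

/-- X1 -/
def St_fin : Prop := ∀ (I : Type) (σ : I → ℕ), (∀ i, 2 ≤ σ i) →
    (∀ (s : ℕ) (S : Finset I), (∀ i ∈ S, σ i ≤ s) → S.card ≤ 2 ^ (2 * s)) →
    ∀ (pos : I → List Bool → List Bool → List Bool),
    (∀ i y z i' y' z', pos i y z = pos i' y' z' → i = i' ∧ y = y' ∧ z = z') →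
    ∀ (Acc : I → Oracle → Prop),
    (∀ i A, Acc i A → ∃ C : Finset (List Bool), C.card ≤ 2 ^ σ i ∧
      ∀ A' : Oracle, (∀ u ∈ C, A' u = A u) → Acc i A') →
    ∀ (S : Finset I) (B : Oracle), ∃ A : Oracle,
      (∀ u, (∀ i y z, u ≠ pos i y z) → A u = B u) ∧
      ∀ i ∈ S, Req (fun i => 4 * σ i + 1) (fun i => 6 * σ i + 1) pos Acc i A

/-- X2 -/
def St_cpt : Prop := ∀ (I : Type) (l r : I → ℕ) (pos : I → List Bool → List Bool → List Bool)
    (Acc : I → Oracle → Prop),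
    (∀ i, ∃ F : Finset (List Bool), ∀ A A' : Oracle, (∀ u ∈ F, A u = A' u) →
      (Acc i A ↔ Acc i A')) →
    ∀ B : Oracle, (∀ S : Finset I, ∃ A : Oracle,
      (∀ u, (∀ i y z, u ≠ pos i y z) → A u = B u) ∧ ∀ i ∈ S, Req l r pos Acc i A) →
    ∃ A : Oracle, (∀ u, (∀ i y z, u ≠ pos i y z) → A u = B u) ∧ ∀ i, Req l r pos Acc i A

/-- X3 -/
def St_data : Prop := ∃ (g : ℕ → Alg × Polynomial ℕ) (S : ℕ → Polynomial ℕ),
    Function.Surjective g ∧ (∀ e n, n + e + 2 ≤ (S e).eval n) ∧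
    ∀ e n, (g e).1.p.eval (2 * 2 ^ (g e).2.eval n + 1 + n) ≤ 2 ^ (S e).eval n

/-- X4 -/
def St_phi : Prop := ∃ (g : ℕ → Alg × Polynomial ℕ) (S : ℕ → Polynomial ℕ),
    Function.Surjective g ∧ ∀ R : ℕ → Polynomial ℕ, ∃ Φ : Oracle → Oracle,
      (∀ B u, (∀ e v, u ≠ code R e v) → Φ B u = B u) ∧
      ∀ B i, Req (lX S) (rX S) (posX R) (AccX g) i (Φ B)

/-- X5 -/
def St_srch : Prop := ∀ (R S : ℕ → Polynomial ℕ) (e : ℕ) (A : Oracle),
    IsNP A {q | srch R S e A q = true}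

/-- X6 -/
def St_alg : Prop := ∀ (S : ℕ → Polynomial ℕ) (e : ℕ), ∃ M : Alg, ∀ (B : Oracle)
    (x t : List Bool), t.length = lX S (e, x) →
    (∀ k < t.length, B (pairBits x (t.take k ++ [true])) = t.getD k false) →
    M.out B x = some [t.getLastD false]

/-- X7 -/
def St_pnp : Prop := ∀ (R S : ℕ → Polynomial ℕ) (Acc : ℕ × List Bool → Oracle → Prop) (e : ℕ)
    (A : Oracle), (∀ x, Req (lX S) (rX S) (posX R) Acc (e, x) A) →
    IsPNP A {x | Acc (e, x) A}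

/-- X8 -/
def St_nn : Prop := ∀ f : ℕ → ℝ, ¬ Cond f →
    ¬ Null f {A : Oracle | ∀ L, IsNEXP A L → IsPNP A L}

/-- X9 -/
def St_par : Prop := ∀ A : Oracle, IsNEXP A (parLang A)

/-- X10 -/
def St_ph : Prop := ∀ (A : Oracle) (L : Set (List Bool)), IsPNP A L → IsPH A L

end Pool.Agent.H752.NX
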